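import Mathlib
import Pool.Agent.KS6_19.MW6

set_option autoImplicit false

open Finset Matrix

namespace Pool.Agent.Results.MP_0bd9b3_al.AllWords

universe u

/-- The value of the noncommutative monomial `x_s x_(l_1) x_(l_2) … x_(l_r)` in the letters
`x_0, …, x_(m-1)`, `l = [l_1, …, l_r]`, at the `m`-tuple `A` of `d × d` matrices over `R`. -/
def wordValue {R : Type u} [NonUnitalRing R] {d m : ℕ} (A : Fin m → Matrix (Fin d) (Fin d) R)
    (s : Fin m) (l : List (Fin m)) : Matrix (Fin d) (Fin d) R :=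
  l.foldl (fun P t => P * A t) (A s)

/-- The sum of the values of the monomial `x_s x_(l_1) … x_(l_r)` at all `m`-tuples of `d × d`
matrices over the finite ring `R`. -/
def wordSum (d : ℕ) (R : Type u) [NonUnitalRing R] [Fintype R] {m : ℕ} (s : Fin m)
    (l : List (Fin m)) : Matrix (Fin d) (Fin d) R :=
  ∑ A : Fin m → Matrix (Fin d) (Fin d) R, wordValue A s l

/-- `d = 2`, the order of `R` is `2` modulo `4`, and the nonzero `e` with `2 e = 0` satisfies
`e ^ 2 = e`. -/
def Exceptional (d : ℕ) (R : Type u) [NonUnitalRing R] [Fintype R] : Prop :=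
  d = 2 ∧ Fintype.card R % 4 = 2 ∧ ∀ e : R, e ≠ 0 → 2 • e = 0 → e * e = e

/-- `A ^ k` for `k ≥ 1`, in a matrix ring which need not have an identity. -/
def matPow {R : Type u} [NonUnitalRing R] {d : ℕ} (A : Matrix (Fin d) (Fin d) R) :
    ℕ → Matrix (Fin d) (Fin d) R
  | 0 => 0
  | 1 => A
  | k + 2 => matPow A (k + 1) * A

/-- `S_k^d(R)`, the sum of the `k`-th powers of all `d × d` matrices over `R`. -/
def powerSum (d k : ℕ) (R : Type u) [NonUnitalRing R] [Fintype R] : Matrix (Fin d) (Fin d) R :=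
  ∑ A : Matrix (Fin d) (Fin d) R, matPow A k

theorem matPow_eq {R : Type u} [NonUnitalRing R] {d : ℕ} (A : Matrix (Fin d) (Fin d) R) (k : ℕ) :
    matPow A k = Pool.Agent.KS6_19.MW.mpow A k := by
  induction k using Nat.twoStepInduction with
  | zero => rfl
  | one => rfl
  | more k _ ih => rw [matPow, ih, Pool.Agent.KS6_19.MW.mpow]

/-- **Sums of noncommutative monomials over all matrices over a finite ring.** Rings are
associative, commutative or not, with or without identity.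

(1) For every finite ring `R`, all `d > 1`, `m ≥ 1` and every nonempty noncommutative monomial `w`
in `m` letters, the sum of `w(A_1, …, A_m)` over all `m`-tuples of `d × d` matrices over `R` is
zero, unless `d = 2`, the order of `R` is `2` modulo `4`, and the nonzero element `e` with `2 e = 0`
is idempotent. In this exceptional case the sum is `diag(e, e)` if the same sum for `ℤ/2` and
`d = 2` is the identity matrix, and zero otherwise.
(2) For `ℤ/2` and `d = 2` the sum is the zero matrix or the identity matrix.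
(3) For `w = x ^ k` and `ℤ/2` it is the identity matrix if and only if `k > 1` and `k` is
`-1`, `0` or `1` modulo `6`.
(4) The statement of the question on the sums of the `k`-th powers. -/
theorem result :
    (∀ (R : Type u) [NonUnitalRing R] [Fintype R] (d m : ℕ), 1 < d →
      ∀ (s : Fin m) (l : List (Fin m)),
        (¬ Exceptional d R → wordSum d R s l = 0) ∧
        (Exceptional d R → ∀ e : R, e ≠ 0 → 2 • e = 0 →
          (wordSum 2 (ZMod 2) s l = 1 → wordSum d R s l = Matrix.diagonal (fun _ => e)) ∧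
          (wordSum 2 (ZMod 2) s l ≠ 1 → wordSum d R s l = 0))) ∧
    (∀ (m : ℕ) (s : Fin m) (l : List (Fin m)),
      wordSum 2 (ZMod 2) s l = 0 ∨ wordSum 2 (ZMod 2) s l = 1) ∧
    (∀ k : ℕ, 1 ≤ k → (wordSum 2 (ZMod 2) (0 : Fin 1) (List.replicate (k - 1) 0) = 1 ↔
      1 < k ∧ (k % 6 = 5 ∨ k % 6 = 0 ∨ k % 6 = 1))) ∧
    (∀ (R : Type u) [NonUnitalRing R] [Fintype R] (d k : ℕ), 1 < d → 1 ≤ k →
      (¬ (Exceptional d R ∧ 1 < k ∧ (k % 6 = 5 ∨ k % 6 = 0 ∨ k % 6 = 1)) →
        powerSum d k R = 0) ∧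
      (Exceptional d R → 1 < k → (k % 6 = 5 ∨ k % 6 = 0 ∨ k % 6 = 1) →
        ∀ e : R, e ≠ 0 → 2 • e = 0 → powerSum d k R = Matrix.diagonal (fun _ => e))) := by
  have h1 : ∀ (R : Type u) [NonUnitalRing R] [Fintype R] (d m : ℕ), 1 < d →
      ∀ (s : Fin m) (l : List (Fin m)),
        (¬ Exceptional d R → wordSum d R s l = 0) ∧
        (Exceptional d R → ∀ e : R, e ≠ 0 → 2 • e = 0 →
          (wordSum 2 (ZMod 2) s l = 1 → wordSum d R s l = Matrix.diagonal (fun _ => e)) ∧
          (wordSum 2 (ZMod 2) s l ≠ 1 → wordSum d R s l = 0)) := by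
    intro R _ _ d m hd s l
    obtain ⟨a, b⟩ := Pool.Agent.KS6_19.MW.main (R := R) d hd s l
    refine ⟨fun h => a h, fun h e he h2 => ?_⟩
    have b' := b h e he h2
    have c := (Pool.Agent.KS6_19.MW.T_two s l).2
    refine ⟨fun h3 => ?_, fun h3 => ?_⟩
    · rw [if_pos (c.2 h3)] at b'
      exact b'
    · rw [if_neg (fun h4 => h3 (c.1 h4))] at b'
      exact b'
  have h3 : ∀ k : ℕ, 1 ≤ k → (wordSum 2 (ZMod 2) (0 : Fin 1) (List.replicate (k - 1) 0) = 1 ↔
      1 < k ∧ (k % 6 = 5 ∨ k % 6 = 0 ∨ k % 6 = 1)) := by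
    intro k hk
    obtain ⟨n, rfl⟩ : ∃ n, k = n + 1 := ⟨k - 1, by omega⟩
    rw [← Pool.Agent.KS6_19.MW.pw_iff (n + 1) hk, ← Pool.Agent.KS6_19.MW.T_pw,
      (Pool.Agent.KS6_19.MW.T_two _ _).2]
    rfl
  refine ⟨h1, fun m s l => (Pool.Agent.KS6_19.MW.T_two s l).1, h3, ?_⟩
  intro R _ _ d k hd hk
  have e1 : powerSum d k R = wordSum d R (0 : Fin 1) (List.replicate (k - 1) 0) := by
    obtain ⟨n, rfl⟩ : ∃ n, k = n + 1 := ⟨k - 1, by omega⟩
    refine Eq.trans ?_ (Pool.Agent.KS6_19.MW.T_replicate (R := R) (d := d) n).symm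
    exact sum_congr rfl fun A _ => matPow_eq A (n + 1)
  obtain ⟨a, b⟩ := h1 R d 1 hd (0 : Fin 1) (List.replicate (k - 1) 0)
  rw [e1]
  refine ⟨fun h => ?_, fun h hk1 hk6 e he h2 => (b h e he h2).1 ((h3 k hk).2 ⟨hk1, hk6⟩)⟩
  by_cases hE : Exceptional d R
  · obtain ⟨_, hc, _⟩ := id hE
    obtain ⟨x, hx⟩ := exists_prime_addOrderOf_dvd_card (G := R) 2 (by omega)
    have x0 : x ≠ 0 := by rintro rfl; simp at hx
    have x2 : 2 • x = 0 := hx ▸ addOrderOf_nsmul_eq_zero x
    exact (b hE x x0 x2).2 (fun h4 => h ⟨hE, (h3 k hk).1 h4⟩)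
  · exact a hE

end Pool.Agent.Results.MP_0bd9b3_al.AllWords
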